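import Pool.Agent.Helper40.AC.Stmts

/-!
Project AC, packet P08: transposes and rank one idempotents.
-/

set_option autoImplicit false

open scoped ContDiff Topology Matrix Kronecker TensorProduct
open MeasureTheory

namespace Pool.Agent.Helper8.AC

open Pool.Agent.Helper40.AC

noncomputable section

/-- Leibniz rule for matrices -/
theorem map_mul_D {S n : Type} [CommRing S] [Fintype n] (D : S → S)
    (hadd : ∀ x y, D (x + y) = D x + D y) (hmul : ∀ x y, D (x * y) = D x * y + x * D y)
    (e f : Matrix n n S) : (e * f).map D = e.map D * f + e * f.map D := by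
  have h0 : D 0 = 0 := by
    have := hadd 0 0
    rw [add_zero] at this
    exact left_eq_add.1 this
  let D' : S →+ S := ⟨⟨D, h0⟩, hadd⟩
  have hD' : ∀ x, D' x = D x := fun _ => rfl
  ext i j
  simp only [Matrix.map_apply, Matrix.mul_apply, Matrix.add_apply]
  rw [← hD', map_sum, ← Finset.sum_add_distrib]
  refine Finset.sum_congr rfl fun k _ => ?_
  rw [hD', hmul]

/-- products of two derivatives commute with the idempotent -/
theorem comm_D {S n : Type} [CommRing S] [Fintype n] (D₁ D₂ : S → S)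
    (hadd₁ : ∀ x y, D₁ (x + y) = D₁ x + D₁ y) (hmul₁ : ∀ x y, D₁ (x * y) = D₁ x * y + x * D₁ y)
    (hadd₂ : ∀ x y, D₂ (x + y) = D₂ x + D₂ y) (hmul₂ : ∀ x y, D₂ (x * y) = D₂ x * y + x * D₂ y)
    (e : Matrix n n S) (he : e * e = e) :
    (e.map D₁ * e.map D₂) * e = e * (e.map D₁ * e.map D₂) := by
  have h1 : e.map D₁ = e.map D₁ * e + e * e.map D₁ := by
    conv_lhs => rw [← he]
    exact map_mul_D D₁ hadd₁ hmul₁ e e
  have h2 : e.map D₂ = e.map D₂ * e + e * e.map D₂ := by
    conv_lhs => rw [← he]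
    exact map_mul_D D₂ hadd₂ hmul₂ e e
  have h3 : e.map D₂ * e = e.map D₂ - e * e.map D₂ := eq_sub_of_add_eq h2.symm
  have h4 : e.map D₁ - e.map D₁ * e = e * e.map D₁ := sub_eq_of_eq_add' h1
  calc (e.map D₁ * e.map D₂) * e = e.map D₁ * (e.map D₂ * e) := Matrix.mul_assoc _ _ _
    _ = e.map D₁ * e.map D₂ - e.map D₁ * (e * e.map D₂) := by rw [h3, Matrix.mul_sub]
    _ = e.map D₁ * e.map D₂ - (e.map D₁ * e) * e.map D₂ := by rw [Matrix.mul_assoc]
    _ = (e.map D₁ - e.map D₁ * e) * e.map D₂ := by rw [Matrix.sub_mul]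
    _ = (e * e.map D₁) * e.map D₂ := by rw [h4]
    _ = e * (e.map D₁ * e.map D₂) := Matrix.mul_assoc _ _ _

/-- the curvature of the transpose -/
theorem Fc_transpose {n : Type} [Fintype n] [DecidableEq n] (h : S_PD) (e : Matrix n n BB)
    (he : e * e = e) (j k : Fin 4) : Fc pd eᵀ j k = -(Fc pd e j k)ᵀ := by
  have c1 := comm_D (pd j) (pd k) (h.1 j) (h.2.1 j) (h.1 k) (h.2.1 k) e he
  have c2 := comm_D (pd k) (pd j) (h.1 k) (h.2.1 k) (h.1 j) (h.2.1 j) e he
  unfold Fc
  rw [Matrix.mul_sub e, ← c1, ← c2]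
  rw [Matrix.transpose_map, Matrix.transpose_map, ← Matrix.transpose_mul,
    ← Matrix.transpose_mul, ← Matrix.transpose_sub, ← Matrix.transpose_mul, ← Matrix.transpose_neg]
  refine congrArg Matrix.transpose ?_
  rw [Matrix.sub_mul, neg_sub]

theorem om_transpose {n : Type} [Fintype n] [DecidableEq n] (h : S_PD) (e : Matrix n n BB)
    (he : e * e = e) (a b c d : Fin 4) : om pd eᵀ a b c d = om pd e a b c d := by
  have key : ∀ a b c d : Fin 4, (Fc pd eᵀ a b * Fc pd eᵀ c d).trace =
      (Fc pd e a b * Fc pd e c d).trace := by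
    intro a b c d
    rw [Fc_transpose h e he, Fc_transpose h e he, neg_mul_neg, ← Matrix.transpose_mul,
      Matrix.trace_transpose, Matrix.trace_mul_comm]
  unfold om
  rw [key, key, key]

theorem trans_ok (h : S_PD) : S_TRANS := by
  refine ⟨?_, ?_⟩
  · intro n _ _ e he
    unfold Phi
    rw [om_transpose h e he]
  · intro n _ _ e he hs j k
    have h1 := Fc_transpose h e he j k
    rw [hs] at h1
    have h2 : (Fc pd e j k).trace = -(Fc pd e j k).trace := by
      conv_lhs => rw [h1]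
      rw [Matrix.trace_neg, Matrix.trace_transpose]
    apply BB.ext
    intro x
    have h3 := congrArg (fun t : BB => t.fn x) h2
    simp only [BB.fn_neg] at h3
    rw [BB.fn_zero]
    exact self_eq_neg.1 h3

/-- a complex idempotent matrix of trace one has vanishing minors -/
theorem minor_zero {n : Type} [Fintype n] [DecidableEq n] (A : Matrix n n ℂ) (hA : A * A = A)
    (ht : A.trace = 1) (i j k l : n) : A i j * A k l = A i l * A k j := by
  set T := Matrix.toLin' A with hT
  have hTT : T ∘ₗ T = T := by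
    rw [hT, ← Matrix.toLin'_mul, hA]
  have hproj : LinearMap.IsProj (LinearMap.range T) T := by
    refine ⟨fun x => ⟨x, rfl⟩, ?_⟩
    rintro _ ⟨y, rfl⟩
    exact LinearMap.congr_fun hTT y
  have h1 := hproj.trace
  rw [hT, Matrix.trace_toLin'_eq, ht, ← hT] at h1
  have h2 : Module.finrank ℂ (LinearMap.range T) = 1 := by exact_mod_cast h1.symm
  obtain ⟨v, _, hv⟩ := finrank_eq_one_iff'.1 h2
  have key : ∀ j : n, ∃ c : ℂ, ∀ i, A i j = c * v.1 i := by
    intro j
    obtain ⟨c, hc⟩ := hv ⟨T (Pi.single j 1), ⟨_, rfl⟩⟩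
    refine ⟨c, fun i => ?_⟩
    have h3 : c • v.1 = T (Pi.single j 1) := congrArg Subtype.val hc
    have h4 : c * v.1 i = T (Pi.single j 1) i := congrFun h3 i
    have h5 : T (Pi.single j 1) i = A i j := by
      rw [hT, Matrix.toLin'_apply, Matrix.mulVec_single_one]
      rfl
    rw [h4, h5]
  obtain ⟨c, hc⟩ := key j
  obtain ⟨d, hd⟩ := key l
  rw [hc i, hc k, hd i, hd k]
  ring

theorem rank1_ok (_h1 : S_PD) (h2 : S_EQUIV) (h3 : S_BLOCK) : S_RANK1 := by
  intro n _ _ f hf ht
  have minor : ∀ i j k l : n, f i j * f k l = f i l * f k j := by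
    intro i j k l
    apply BB.ext
    intro x
    have hA : f.map (evx x) * f.map (evx x) = f.map (evx x) := by
      rw [← Matrix.map_mul, hf]
    have htA : (f.map (evx x)).trace = 1 := by
      have h4 := congrArg (evx x) ht
      rw [map_one] at h4
      rw [← h4]
      simp [Matrix.trace, Matrix.diag]
    have := minor_zero (f.map (evx x)) hA htA i j k l
    simpa using this
  have e1 : (f ⊗ₖ fᵀ) * (f ⊗ₖ fᵀ) = f ⊗ₖ fᵀ := by
    rw [← Matrix.mul_kronecker_mul, hf, ← Matrix.transpose_mul, hf]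
  let a : Matrix (n × n) Unit BB := Matrix.of (fun p _ => f p.1 p.2)
  let b : Matrix Unit (n × n) BB := Matrix.of (fun _ p => f p.2 p.1)
  have e2 : a * b = f ⊗ₖ fᵀ := by
    ext ⟨i, j⟩ ⟨k, l⟩
    rw [Matrix.mul_apply, Fintype.sum_unique, Matrix.kroneckerMap_apply]
    exact minor i j l k
  have e3 : b * a = 1 := by
    ext u v
    rw [Matrix.mul_apply, Matrix.one_apply_eq, ← ht]
    conv_rhs => rw [← hf]
    rw [Fintype.sum_prod_type]
    simp only [Matrix.trace, Matrix.diag, Matrix.mul_apply]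
    refine Finset.sum_congr rfl fun i _ => Finset.sum_congr rfl fun j _ => ?_
    show f j i * f i j = f i j * f j i
    exact mul_comm _ _
  rw [h2 (f ⊗ₖ fᵀ) (1 : Matrix Unit Unit BB) a b e1 (one_mul 1) e2 e3]
  exact h3.2.2

end

end Pool.Agent.Helper8.AC
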